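import Pool.Agent.helper32.TRG.Facts
import Pool.Agent.helper32.EXB.Facts

/-!
# `D₄(q)` with all automorphisms (MP_561ff4_al)
-/

set_option autoImplicit false

namespace Pool.Agent.TRI

open Pool.Agent.EXC

theorem D4_IsB : Pool.Agent.EXA.IsB C4 1 th4 ch3 where
  th2 := D4_IsD.th2
  thd := D4_IsD.thd
  con := D4_IsD.con
  inc := D4_IsA.inc
  ch := D4_IsA.ch

/-- ten conjugates of any automorphism `x ≠ 1` of the adjoint Chevalley group `D₄(F)` generate a group which contains the inner automorphisms -/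
theorem D4_gen (F : Type) [Field F] [Finite F] (x : MulAut (EG C4 F)) (hx : x ≠ 1) :
    (∃ h : Fin 10 → EG C4 F, (MulAut.conj : EG C4 F →* MulAut (EG C4 F)).range ≤
      Subgroup.closure (Set.range fun i => MulAut.conj (h i) * x * (MulAut.conj (h i))⁻¹)) ∧
    ∀ r : ℕ, r.Prime → r ∣ Nat.card (EG C4 F) → 10 ∈ Pool.Agent.GS.CSet r x :=
  t_Z5F GK4_2 GK4_3 GK4_4 GK4_1 GK4_0 F x hx

/-- `r = 3` -/
theorem D4_r3 (F : Type) [Field F] [Finite F] (x : MulAut (EG C4 F)) (hx : x ≠ 1) : ∃ k ∈ Pool.Agent.GS.CSet 3 x, k ≤ 3 := by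
  have hRA : RA C4 x := g4_ARA F x
  by_cases h3 : 3 ∣ Nat.card F
  · obtain ⟨p, hp⟩ := CharP.exists F
    have := hp
    have : Fintype F := Fintype.ofFinite F
    obtain ⟨m, hpp, hm⟩ := FiniteField.card F p
    rw [Nat.card_eq_fintype_card, hm] at h3
    have : 3 = p := (Nat.prime_dvd_prime_iff_eq Nat.prime_three hpp).1 (Nat.prime_three.dvd_of_dvd_pow h3)
    subst this
    exact ⟨2, Pool.Agent.EXA.b_BPW 4 C4 F 1 th4 ch3 D4_IsB x hRA hx 3 Nat.prime_three hp, by norm_num⟩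
  · exact Pool.Agent.EXA.b_Z3F 4 C4 F 1 th4 ch3 D4_IsB h3 x hRA hx

/-- `r` the characteristic -/
theorem D4_rp (F : Type) [Field F] [Finite F] (x : MulAut (EG C4 F)) (hx : x ≠ 1) (p : ℕ) (hp : p.Prime) (hF : CharP F p) :
    2 ∈ Pool.Agent.GS.CSet p x :=
  Pool.Agent.EXA.b_BPW 4 C4 F 1 th4 ch3 D4_IsB x (g4_ARA F x) hx p hp hF

/-- `r = 5` and `r = 7` -/
theorem D4_r57 (F : Type) [Field F] [Finite F] (x : MulAut (EG C4 F)) (hx : x ≠ 1) :
    4 ∈ Pool.Agent.GS.CSet 5 x ∧ 6 ∈ Pool.Agent.GS.CSet 7 x := t_TRF F x hx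

/-- **Q1 for `D₄(q)`**: every automorphism `x ≠ 1`, every odd prime `r` which divides the order of the group -/
theorem D4_Q1 (F : Type) [Field F] [Finite F] (x : MulAut (EG C4 F)) (hx : x ≠ 1) (r : ℕ) (hr : r.Prime) (h2 : r ≠ 2)
    (hd : r ∣ Nat.card (EG C4 F)) : ∃ k ∈ Pool.Agent.GS.CSet r x, k ≤ if r = 3 then 3 else r - 1 := by
  by_cases h3 : r = 3
  · subst h3
    rw [if_pos rfl]
    exact D4_r3 F x hx
  rw [if_neg h3]
  by_cases h5 : r = 5
  · subst h5
    exact ⟨4, (D4_r57 F x hx).1, le_rfl⟩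
  by_cases h7 : r = 7
  · subst h7
    exact ⟨6, (D4_r57 F x hx).2, le_rfl⟩
  refine ⟨10, (D4_gen F x hx).2 r hr hd, ?_⟩
  have h11 : 11 ≤ r := by
    by_contra hlt
    have h0 := hr.two_le
    have : r < 11 := by omega
    interval_cases r
    · exact h2 rfl
    · exact h3 rfl
    · exact absurd hr (by norm_num)
    · exact h5 rfl
    · exact absurd hr (by norm_num)
    · exact h7 rfl
    · exact absurd hr (by norm_num)
    · exact absurd hr (by norm_num)
    · exact absurd hr (by norm_num)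
  omega

end Pool.Agent.TRI
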