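import Pool.Agent.helper32.TRG.Spec

/-!
# Project TRG (MP_561ff4_al): certificates for the three classes of orthogonal pairs
-/

set_option autoImplicit false

open Finset

namespace Pool.Agent.TRI

open Pool.Agent.EXC

/-- the products of the class `2` -/
def cl5_2 : List (List ((Fin 4 → ℤ) × Bool)) :=
  [[(lt4 22, true), (lt4 18, true), (lt4 15, true)],
    [(lt4 3, true), (lt4 23, true)],
    [(lt4 6, true), (lt4 10, true)],
    [(lt4 0, true), (lt4 1, true), (lt4 10, true)],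
    [(lt4 17, true), (lt4 4, true), (lt4 8, false)]]

theorem GK4_2 : Ct4 2 := by
  have h14 : Cgr C4 cl5_2 [] (lt4 14) := Cgr.com [(lt4 3, true)] [] [(lt4 0, true), (lt4 1, true)] [] (lt4 23) (lt4 10) (lt4 14)
    (by decide +kernel) (by decide +kernel) (by decide +kernel)
  have h3 : Cgr C4 cl5_2 [] (lt4 3) := Cgr.act (lt4 14) [] [(lt4 10, true)] (lt4 6) (lt4 3) h14
    (by decide +kernel) (by decide +kernel)
  have h0 : Cgr C4 cl5_2 [] (lt4 0) := Cgr.act (lt4 14) [(lt4 17, true)] [(lt4 8, false)] (lt4 4) (lt4 0) h14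
    (by decide +kernel) (by decide +kernel)
  have h8 : Cgr C4 cl5_2 [] (lt4 8) := Cgr.act (lt4 3) [(lt4 17, true)] [(lt4 8, false)] (lt4 4) (lt4 8) h3
    (by decide +kernel) (by decide +kernel)
  have h21 : Cgr C4 cl5_2 [] (lt4 21) := Cgr.act (lt4 0) [] [(lt4 18, true), (lt4 15, true)] (lt4 22) (lt4 21) h0
    (by decide +kernel) (by decide +kernel)
  have h10 : Cgr C4 cl5_2 [] (lt4 10) := Cgr.act (lt4 8) [(lt4 0, true)] [(lt4 10, true)] (lt4 1) (lt4 10) h8
    (by decide +kernel) (by decide +kernel)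
  have h6 : Cgr C4 cl5_2 [] (lt4 6) := by
    refine Cgr.one [] [(lt4 10, true)] (lt4 6) (by decide +kernel) (by decide +kernel) ?_
    intro p hp
    simp only [List.nil_append, List.cons_append, List.append_nil, List.mem_cons, List.not_mem_nil, or_false] at hp
    rw [hp]
    exact h10
  have h1 : Cgr C4 cl5_2 [] (lt4 1) := by
    refine Cgr.one [(lt4 0, true)] [(lt4 10, true)] (lt4 1) (by decide +kernel) (by decide +kernel) ?_
    intro p hp
    simp only [List.nil_append, List.cons_append, List.append_nil, List.mem_cons, List.not_mem_nil, or_false] at hp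
    rcases hp with hp | hp
    · rw [hp]; exact h0
    · rw [hp]; exact h10
  have h13 : Cgr C4 cl5_2 [] (lt4 13) := Cgr.add (lt4 21) (lt4 6) (lt4 13) h21 h6 (by decide +kernel)
  have h18 : Cgr C4 cl5_2 [] (lt4 18) := Cgr.add (lt4 21) (lt4 1) (lt4 18) h21 h1 (by decide +kernel)
  have h20 : Cgr C4 cl5_2 [] (lt4 20) := Cgr.act (lt4 1) [] [(lt4 18, true), (lt4 15, true)] (lt4 22) (lt4 20) h1
    (by decide +kernel) (by decide +kernel)
  have h12 : Cgr C4 cl5_2 [] (lt4 12) := Cgr.add (lt4 6) (lt4 20) (lt4 12) h6 h20 (by decide +kernel)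
  have h22 : Cgr C4 cl5_2 [] (lt4 22) := Cgr.add (lt4 13) (lt4 20) (lt4 22) h13 h20 (by decide +kernel)
  have h15 : Cgr C4 cl5_2 [] (lt4 15) := by
    refine Cgr.one [(lt4 22, true), (lt4 18, true)] [] (lt4 15) (by decide +kernel) (by decide +kernel) ?_
    intro p hp
    simp only [List.nil_append, List.cons_append, List.append_nil, List.mem_cons, List.not_mem_nil, or_false] at hp
    rcases hp with hp | hp
    · rw [hp]; exact h22
    · rw [hp]; exact h18
  have h2 : Cgr C4 cl5_2 [] (lt4 2) := Cgr.add (lt4 6) (lt4 15) (lt4 2) h6 h15 (by decide +kernel)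
  refine ⟨cl5_2, by decide +kernel, ?_, ⟨lt4 17, lt4 4, lt4 8, by decide +kernel, by decide +kernel, by decide +kernel, by decide +kernel⟩, ?_⟩
  · intro P hP
    simp only [cl5_2, List.mem_cons, List.not_mem_nil, or_false] at hP
    rcases hP with hP | hP | hP | hP | hP
    · exact ⟨lt4 22, lt4 18, by unfold Kl4; decide +kernel, Or.inr ⟨lt4 15, true, by decide +kernel, by decide +kernel, by decide +kernel, hP⟩⟩
    · exact ⟨lt4 3, lt4 23, by unfold Kl4; decide +kernel, Or.inl hP⟩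
    · exact ⟨lt4 6, lt4 10, by unfold Kl4; decide +kernel, Or.inl hP⟩
    · exact ⟨lt4 0, lt4 1, by unfold Kl4; decide +kernel, Or.inr ⟨lt4 10, true, by decide +kernel, by decide +kernel, by decide +kernel, hP⟩⟩
    · exact ⟨lt4 17, lt4 4, by unfold Kl4; decide +kernel, Or.inr ⟨lt4 8, false, by decide +kernel, by decide +kernel, by decide +kernel, hP⟩⟩
  · have e0 : (sr 0 : Fin 4 → ℤ) = lt4 3 ∧ -(sr 0 : Fin 4 → ℤ) = lt4 15 := by decide +kernel
    have e1 : (sr 1 : Fin 4 → ℤ) = lt4 2 ∧ -(sr 1 : Fin 4 → ℤ) = lt4 14 := by decide +kernel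
    have e2 : (sr 2 : Fin 4 → ℤ) = lt4 1 ∧ -(sr 2 : Fin 4 → ℤ) = lt4 13 := by decide +kernel
    have e3 : (sr 3 : Fin 4 → ℤ) = lt4 0 ∧ -(sr 3 : Fin 4 → ℤ) = lt4 12 := by decide +kernel
    intro i
    fin_cases i
    · exact ⟨e0.1 ▸ h3, e0.2 ▸ h15⟩
    · exact ⟨e1.1 ▸ h2, e1.2 ▸ h14⟩
    · exact ⟨e2.1 ▸ h1, e2.2 ▸ h13⟩
    · exact ⟨e3.1 ▸ h0, e3.2 ▸ h12⟩

/-- the products of the class `3` -/
def cl5_3 : List (List ((Fin 4 → ℤ) × Bool)) :=
  [[(lt4 5, true), (lt4 10, true)],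
    [(lt4 15, true), (lt4 12, true)],
    [(lt4 13, true), (lt4 11, true), (lt4 6, true)],
    [(lt4 6, true), (lt4 16, true)],
    [(lt4 17, true), (lt4 10, true), (lt4 0, false)]]

theorem GK4_3 : Ct4 3 := by
  have h2 : Cgr C4 cl5_3 [] (lt4 2) := Cgr.com [] [(lt4 12, true)] [(lt4 13, true), (lt4 11, true)] [] (lt4 15) (lt4 6) (lt4 2)
    (by decide +kernel) (by decide +kernel) (by decide +kernel)
  have h11 : Cgr C4 cl5_3 [] (lt4 11) := Cgr.act (lt4 2) [(lt4 5, true)] [] (lt4 10) (lt4 11) h2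
    (by decide +kernel) (by decide +kernel)
  have h12 : Cgr C4 cl5_3 [] (lt4 12) := Cgr.act (lt4 2) [(lt4 6, true)] [] (lt4 16) (lt4 12) h2
    (by decide +kernel) (by decide +kernel)
  have h15 : Cgr C4 cl5_3 [] (lt4 15) := by
    refine Cgr.one [] [(lt4 12, true)] (lt4 15) (by decide +kernel) (by decide +kernel) ?_
    intro p hp
    simp only [List.nil_append, List.cons_append, List.append_nil, List.mem_cons, List.not_mem_nil, or_false] at hp
    rw [hp]
    exact h12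
  have h8 : Cgr C4 cl5_3 [] (lt4 8) := Cgr.act (lt4 11) [] [(lt4 10, true), (lt4 0, false)] (lt4 17) (lt4 8) h11
    (by decide +kernel) (by decide +kernel)
  have h7 : Cgr C4 cl5_3 [] (lt4 7) := Cgr.act (lt4 15) [(lt4 5, true)] [] (lt4 10) (lt4 7) h15
    (by decide +kernel) (by decide +kernel)
  have h6 : Cgr C4 cl5_3 [] (lt4 6) := Cgr.add (lt4 12) (lt4 8) (lt4 6) h12 h8 (by decide +kernel)
  have h3 : Cgr C4 cl5_3 [] (lt4 3) := Cgr.act (lt4 8) [(lt4 6, true)] [] (lt4 16) (lt4 3) h8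
    (by decide +kernel) (by decide +kernel)
  have h0 : Cgr C4 cl5_3 [] (lt4 0) := Cgr.act (lt4 7) [] [(lt4 10, true), (lt4 0, false)] (lt4 17) (lt4 0) h7
    (by decide +kernel) (by decide +kernel)
  have h13 : Cgr C4 cl5_3 [] (lt4 13) := by
    refine Cgr.one [] [(lt4 11, true), (lt4 6, true)] (lt4 13) (by decide +kernel) (by decide +kernel) ?_
    intro p hp
    simp only [List.nil_append, List.cons_append, List.append_nil, List.mem_cons, List.not_mem_nil, or_false] at hp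
    rcases hp with hp | hp
    · rw [hp]; exact h11
    · rw [hp]; exact h6
  have h16 : Cgr C4 cl5_3 [] (lt4 16) := by
    refine Cgr.one [(lt4 6, true)] [] (lt4 16) (by decide +kernel) (by decide +kernel) ?_
    intro p hp
    simp only [List.nil_append, List.cons_append, List.append_nil, List.mem_cons, List.not_mem_nil, or_false] at hp
    rw [hp]
    exact h6
  have h1 : Cgr C4 cl5_3 [] (lt4 1) := Cgr.add (lt4 7) (lt4 16) (lt4 1) h7 h16 (by decide +kernel)
  have h14 : Cgr C4 cl5_3 [] (lt4 14) := Cgr.add (lt4 0) (lt4 16) (lt4 14) h0 h16 (by decide +kernel)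
  refine ⟨cl5_3, by decide +kernel, ?_, ⟨lt4 17, lt4 10, lt4 0, by decide +kernel, by decide +kernel, by decide +kernel, by decide +kernel⟩, ?_⟩
  · intro P hP
    simp only [cl5_3, List.mem_cons, List.not_mem_nil, or_false] at hP
    rcases hP with hP | hP | hP | hP | hP
    · exact ⟨lt4 5, lt4 10, by unfold Kl4; decide +kernel, Or.inl hP⟩
    · exact ⟨lt4 15, lt4 12, by unfold Kl4; decide +kernel, Or.inl hP⟩
    · exact ⟨lt4 13, lt4 11, by unfold Kl4; decide +kernel, Or.inr ⟨lt4 6, true, by decide +kernel, by decide +kernel, by decide +kernel, hP⟩⟩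
    · exact ⟨lt4 6, lt4 16, by unfold Kl4; decide +kernel, Or.inl hP⟩
    · exact ⟨lt4 17, lt4 10, by unfold Kl4; decide +kernel, Or.inr ⟨lt4 0, false, by decide +kernel, by decide +kernel, by decide +kernel, hP⟩⟩
  · have e0 : (sr 0 : Fin 4 → ℤ) = lt4 3 ∧ -(sr 0 : Fin 4 → ℤ) = lt4 15 := by decide +kernel
    have e1 : (sr 1 : Fin 4 → ℤ) = lt4 2 ∧ -(sr 1 : Fin 4 → ℤ) = lt4 14 := by decide +kernel
    have e2 : (sr 2 : Fin 4 → ℤ) = lt4 1 ∧ -(sr 2 : Fin 4 → ℤ) = lt4 13 := by decide +kernel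
    have e3 : (sr 3 : Fin 4 → ℤ) = lt4 0 ∧ -(sr 3 : Fin 4 → ℤ) = lt4 12 := by decide +kernel
    intro i
    fin_cases i
    · exact ⟨e0.1 ▸ h3, e0.2 ▸ h15⟩
    · exact ⟨e1.1 ▸ h2, e1.2 ▸ h14⟩
    · exact ⟨e2.1 ▸ h1, e2.2 ▸ h13⟩
    · exact ⟨e3.1 ▸ h0, e3.2 ▸ h12⟩

/-- the products of the class `4` -/
def cl5_4 : List (List ((Fin 4 → ℤ) × Bool)) :=
  [[(lt4 13, true), (lt4 15, true), (lt4 4, true)],
    [(lt4 5, true), (lt4 6, true), (lt4 12, true)],
    [(lt4 11, true), (lt4 0, true), (lt4 8, true)],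
    [(lt4 3, true), (lt4 13, true), (lt4 6, true)],
    [(lt4 16, true), (lt4 10, true), (lt4 3, false)]]

theorem GK4_4 : Ct4 4 := by
  have h4 : Cgr C4 cl5_4 [] (lt4 4) := Cgr.com [(lt4 13, true)] [(lt4 4, true)] [(lt4 11, true), (lt4 0, true)] [] (lt4 15) (lt4 8) (lt4 4)
    (by decide +kernel) (by decide +kernel) (by decide +kernel)
  have h8 : Cgr C4 cl5_4 [] (lt4 8) := Cgr.com [(lt4 11, true)] [(lt4 8, true)] [(lt4 3, true), (lt4 13, true)] [] (lt4 0) (lt4 6) (lt4 8)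
    (by decide +kernel) (by decide +kernel) (by decide +kernel)
  have h2 : Cgr C4 cl5_4 [] (lt4 2) := Cgr.act (lt4 4) [(lt4 5, true), (lt4 6, true)] [] (lt4 12) (lt4 2) h4
    (by decide +kernel) (by decide +kernel)
  have h3 : Cgr C4 cl5_4 [] (lt4 3) := Cgr.act (lt4 8) [] [(lt4 10, true), (lt4 3, false)] (lt4 16) (lt4 3) h8
    (by decide +kernel) (by decide +kernel)
  have h6 : Cgr C4 cl5_4 [] (lt4 6) := Cgr.act (lt4 2) [] [(lt4 13, true), (lt4 6, true)] (lt4 3) (lt4 6) h2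
    (by decide +kernel) (by decide +kernel)
  have h9 : Cgr C4 cl5_4 [] (lt4 9) := Cgr.act (lt4 3) [] [(lt4 6, true), (lt4 12, true)] (lt4 5) (lt4 9) h3
    (by decide +kernel) (by decide +kernel)
  have h13 : Cgr C4 cl5_4 [] (lt4 13) := by
    refine Cgr.one [(lt4 3, true)] [(lt4 6, true)] (lt4 13) (by decide +kernel) (by decide +kernel) ?_
    intro p hp
    simp only [List.nil_append, List.cons_append, List.append_nil, List.mem_cons, List.not_mem_nil, or_false] at hp
    rcases hp with hp | hp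
    · rw [hp]; exact h3
    · rw [hp]; exact h6
  have h11 : Cgr C4 cl5_4 [] (lt4 11) := Cgr.add (lt4 4) (lt4 9) (lt4 11) h4 h9 (by decide +kernel)
  have h15 : Cgr C4 cl5_4 [] (lt4 15) := by
    refine Cgr.one [(lt4 13, true)] [(lt4 4, true)] (lt4 15) (by decide +kernel) (by decide +kernel) ?_
    intro p hp
    simp only [List.nil_append, List.cons_append, List.append_nil, List.mem_cons, List.not_mem_nil, or_false] at hp
    rcases hp with hp | hp
    · rw [hp]; exact h13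
    · rw [hp]; exact h4
  have h0 : Cgr C4 cl5_4 [] (lt4 0) := by
    refine Cgr.one [(lt4 11, true)] [(lt4 8, true)] (lt4 0) (by decide +kernel) (by decide +kernel) ?_
    intro p hp
    simp only [List.nil_append, List.cons_append, List.append_nil, List.mem_cons, List.not_mem_nil, or_false] at hp
    rcases hp with hp | hp
    · rw [hp]; exact h11
    · rw [hp]; exact h8
  have h5 : Cgr C4 cl5_4 [] (lt4 5) := Cgr.add (lt4 9) (lt4 15) (lt4 5) h9 h15 (by decide +kernel)
  have h14 : Cgr C4 cl5_4 [] (lt4 14) := Cgr.act (lt4 0) [] [(lt4 10, true), (lt4 3, false)] (lt4 16) (lt4 14) h0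
    (by decide +kernel) (by decide +kernel)
  have h12 : Cgr C4 cl5_4 [] (lt4 12) := by
    refine Cgr.one [(lt4 5, true), (lt4 6, true)] [] (lt4 12) (by decide +kernel) (by decide +kernel) ?_
    intro p hp
    simp only [List.nil_append, List.cons_append, List.append_nil, List.mem_cons, List.not_mem_nil, or_false] at hp
    rcases hp with hp | hp
    · rw [hp]; exact h5
    · rw [hp]; exact h6
  have h1 : Cgr C4 cl5_4 [] (lt4 1) := Cgr.add (lt4 5) (lt4 14) (lt4 1) h5 h14 (by decide +kernel)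
  refine ⟨cl5_4, by decide +kernel, ?_, ⟨lt4 16, lt4 10, lt4 3, by decide +kernel, by decide +kernel, by decide +kernel, by decide +kernel⟩, ?_⟩
  · intro P hP
    simp only [cl5_4, List.mem_cons, List.not_mem_nil, or_false] at hP
    rcases hP with hP | hP | hP | hP | hP
    · exact ⟨lt4 13, lt4 15, by unfold Kl4; decide +kernel, Or.inr ⟨lt4 4, true, by decide +kernel, by decide +kernel, by decide +kernel, hP⟩⟩
    · exact ⟨lt4 5, lt4 6, by unfold Kl4; decide +kernel, Or.inr ⟨lt4 12, true, by decide +kernel, by decide +kernel, by decide +kernel, hP⟩⟩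
    · exact ⟨lt4 11, lt4 0, by unfold Kl4; decide +kernel, Or.inr ⟨lt4 8, true, by decide +kernel, by decide +kernel, by decide +kernel, hP⟩⟩
    · exact ⟨lt4 3, lt4 13, by unfold Kl4; decide +kernel, Or.inr ⟨lt4 6, true, by decide +kernel, by decide +kernel, by decide +kernel, hP⟩⟩
    · exact ⟨lt4 16, lt4 10, by unfold Kl4; decide +kernel, Or.inr ⟨lt4 3, false, by decide +kernel, by decide +kernel, by decide +kernel, hP⟩⟩
  · have e0 : (sr 0 : Fin 4 → ℤ) = lt4 3 ∧ -(sr 0 : Fin 4 → ℤ) = lt4 15 := by decide +kernel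
    have e1 : (sr 1 : Fin 4 → ℤ) = lt4 2 ∧ -(sr 1 : Fin 4 → ℤ) = lt4 14 := by decide +kernel
    have e2 : (sr 2 : Fin 4 → ℤ) = lt4 1 ∧ -(sr 2 : Fin 4 → ℤ) = lt4 13 := by decide +kernel
    have e3 : (sr 3 : Fin 4 → ℤ) = lt4 0 ∧ -(sr 3 : Fin 4 → ℤ) = lt4 12 := by decide +kernel
    intro i
    fin_cases i
    · exact ⟨e0.1 ▸ h3, e0.2 ▸ h15⟩
    · exact ⟨e1.1 ▸ h2, e1.2 ▸ h14⟩
    · exact ⟨e2.1 ▸ h1, e2.2 ▸ h13⟩
    · exact ⟨e3.1 ▸ h0, e3.2 ▸ h12⟩

end Pool.Agent.TRI
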