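import Pool.Agent.helper32.TRG.Spec

/-!
# Project TRG (MP_561ff4_al): certificates for the types `-1` and `-2`
-/

set_option autoImplicit false

open Finset

namespace Pool.Agent.TRI

open Pool.Agent.EXC

/-- the pairs -/
def cm1 : List ((Fin 4 → ℤ) × (Fin 4 → ℤ)) := [(lt4 22, lt4 11), (lt4 0, lt4 9), (lt4 17, lt4 7), (lt4 18, lt4 3)]

/-- the products -/
def cl5_1 : List (List ((Fin 4 → ℤ) × Bool)) := (cm1.map fun p => [(p.1, true), (p.2, true)]) ++ [[(lt4 4, true), (lt4 20, false)]]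

theorem GK4_1 : Ct0 C4 (-1) := by
  have h1 : Cgr C4 cl5_1 [] (lt4 1) := Cgr.com [(lt4 0, true)] [] [] [(lt4 3, true)] (lt4 9) (lt4 18) (lt4 1)
    (by decide +kernel) (by decide +kernel) (by decide +kernel)
  have h14 : Cgr C4 cl5_1 [] (lt4 14) := Cgr.act (lt4 1) [] [(lt4 7, true)] (lt4 17) (lt4 14) h1
    (by decide +kernel) (by decide +kernel)
  have h7 : Cgr C4 cl5_1 [] (lt4 7) := Cgr.act (lt4 1) [] [(lt4 20, false)] (lt4 4) (lt4 7) h1
    (by decide +kernel) (by decide +kernel)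
  have h17 : Cgr C4 cl5_1 [] (lt4 17) := by
    refine Cgr.one [] [(lt4 7, true)] (lt4 17) (by decide +kernel) (by decide +kernel) ?_
    intro p hp
    simp only [List.nil_append, List.cons_append, List.append_nil, List.mem_cons, List.not_mem_nil, or_false] at hp
    rw [hp]
    exact h7
  have h15 : Cgr C4 cl5_1 [] (lt4 15) := Cgr.act (lt4 7) [] [(lt4 11, true)] (lt4 22) (lt4 15) h7
    (by decide +kernel) (by decide +kernel)
  have h0 : Cgr C4 cl5_1 [] (lt4 0) := Cgr.act (lt4 7) [] [(lt4 7, true)] (lt4 17) (lt4 0) h7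
    (by decide +kernel) (by decide +kernel)
  have h3 : Cgr C4 cl5_1 [] (lt4 3) := Cgr.act (lt4 17) [(lt4 0, true)] [] (lt4 9) (lt4 3) h17
    (by decide +kernel) (by decide +kernel)
  have h9 : Cgr C4 cl5_1 [] (lt4 9) := by
    refine Cgr.one [(lt4 0, true)] [] (lt4 9) (by decide +kernel) (by decide +kernel) ?_
    intro p hp
    simp only [List.nil_append, List.cons_append, List.append_nil, List.mem_cons, List.not_mem_nil, or_false] at hp
    rw [hp]
    exact h0
  have h12 : Cgr C4 cl5_1 [] (lt4 12) := Cgr.act (lt4 9) [] [(lt4 11, true)] (lt4 22) (lt4 12) h9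
    (by decide +kernel) (by decide +kernel)
  have h2 : Cgr C4 cl5_1 [] (lt4 2) := Cgr.act (lt4 12) [] [(lt4 20, false)] (lt4 4) (lt4 2) h12
    (by decide +kernel) (by decide +kernel)
  have h13 : Cgr C4 cl5_1 [] (lt4 13) := Cgr.add (lt4 17) (lt4 2) (lt4 13) h17 h2 (by decide +kernel)
  refine ⟨cm1, lt4 4, lt4 20, by decide +kernel, by decide +kernel, by decide +kernel, by decide +kernel, by decide +kernel, ?_⟩
  · show ∀ i, Cgr C4 cl5_1 [] (sr i) ∧ Cgr C4 cl5_1 [] (-sr i)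
    have e0 : (sr 0 : Fin 4 → ℤ) = lt4 3 ∧ -(sr 0 : Fin 4 → ℤ) = lt4 15 := by decide +kernel
    have e1 : (sr 1 : Fin 4 → ℤ) = lt4 2 ∧ -(sr 1 : Fin 4 → ℤ) = lt4 14 := by decide +kernel
    have e2 : (sr 2 : Fin 4 → ℤ) = lt4 1 ∧ -(sr 2 : Fin 4 → ℤ) = lt4 13 := by decide +kernel
    have e3 : (sr 3 : Fin 4 → ℤ) = lt4 0 ∧ -(sr 3 : Fin 4 → ℤ) = lt4 12 := by decide +kernel
    intro i
    fin_cases i
    · exact ⟨e0.1 ▸ h3, e0.2 ▸ h15⟩
    · exact ⟨e1.1 ▸ h2, e1.2 ▸ h14⟩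
    · exact ⟨e2.1 ▸ h1, e2.2 ▸ h13⟩
    · exact ⟨e3.1 ▸ h0, e3.2 ▸ h12⟩

/-- the products for the type `-2` -/
def cl5_0 : List (List ((Fin 4 → ℤ) × Bool)) :=
  [[(lt4 9, false), (lt4 17, true), (lt4 6, true)],
    [(lt4 8, true), (lt4 18, true), (lt4 10, true)],
    [(lt4 10, true), (lt4 19, true), (lt4 9, true)],
    [(lt4 9, true), (lt4 22, true), (lt4 6, true)]]

theorem GK4_0 : Ct2 C4 th4 := by
  have h3 : Cgr C4 cl5_0 [th4] (lt4 3) := Cgr.com [(lt4 9, false)] [(lt4 6, true)] [(lt4 10, true), (lt4 19, true)] [] (lt4 17) (lt4 9) (lt4 3)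
    (by decide +kernel) (by decide +kernel) (by decide +kernel)
  have h14 : Cgr C4 cl5_0 [th4] (lt4 14) := Cgr.act (lt4 3) [(lt4 8, true)] [(lt4 10, true)] (lt4 18) (lt4 14) h3
    (by decide +kernel) (by decide +kernel)
  have h19 : Cgr C4 cl5_0 [th4] (lt4 19) := Cgr.act (lt4 3) [(lt4 9, true)] [(lt4 6, true)] (lt4 22) (lt4 19) h3
    (by decide +kernel) (by decide +kernel)
  have h10 : Cgr C4 cl5_0 [th4] (lt4 10) := Cgr.yy (lt4 14) th4 (lt4 10) h14 (by decide +kernel)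
  have h6 : Cgr C4 cl5_0 [th4] (lt4 6) := Cgr.yy (lt4 19) th4 (lt4 6) h19 (by decide +kernel)
  have h9 : Cgr C4 cl5_0 [th4] (lt4 9) := by
    refine Cgr.one [(lt4 10, true), (lt4 19, true)] [] (lt4 9) (by decide +kernel) (by decide +kernel) ?_
    intro p hp
    simp only [List.nil_append, List.cons_append, List.append_nil, List.mem_cons, List.not_mem_nil, or_false] at hp
    rcases hp with hp | hp
    · rw [hp]; exact h10
    · rw [hp]; exact h19
  have h22 : Cgr C4 cl5_0 [th4] (lt4 22) := by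
    refine Cgr.one [(lt4 9, true)] [(lt4 6, true)] (lt4 22) (by decide +kernel) (by decide +kernel) ?_
    intro p hp
    simp only [List.nil_append, List.cons_append, List.append_nil, List.mem_cons, List.not_mem_nil, or_false] at hp
    rcases hp with hp | hp
    · rw [hp]; exact h9
    · rw [hp]; exact h6
  have h12 : Cgr C4 cl5_0 [th4] (lt4 12) := Cgr.act (lt4 9) [(lt4 9, true)] [(lt4 6, true)] (lt4 22) (lt4 12) h9
    (by decide +kernel) (by decide +kernel)
  have h2 : Cgr C4 cl5_0 [th4] (lt4 2) := Cgr.yy (lt4 22) th4 (lt4 2) h22 (by decide +kernel)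
  have h11 : Cgr C4 cl5_0 [th4] (lt4 11) := Cgr.add (lt4 10) (lt4 2) (lt4 11) h10 h2 (by decide +kernel)
  have h8 : Cgr C4 cl5_0 [th4] (lt4 8) := Cgr.act (lt4 11) [(lt4 9, false)] [(lt4 6, true)] (lt4 17) (lt4 8) h11
    (by decide +kernel) (by decide +kernel)
  have h7 : Cgr C4 cl5_0 [th4] (lt4 7) := Cgr.act (lt4 11) [(lt4 8, true)] [(lt4 10, true)] (lt4 18) (lt4 7) h11
    (by decide +kernel) (by decide +kernel)
  have h18 : Cgr C4 cl5_0 [th4] (lt4 18) := by
    refine Cgr.one [(lt4 8, true)] [(lt4 10, true)] (lt4 18) (by decide +kernel) (by decide +kernel) ?_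
    intro p hp
    simp only [List.nil_append, List.cons_append, List.append_nil, List.mem_cons, List.not_mem_nil, or_false] at hp
    rcases hp with hp | hp
    · rw [hp]; exact h8
    · rw [hp]; exact h10
  have h1 : Cgr C4 cl5_0 [th4] (lt4 1) := Cgr.add (lt4 9) (lt4 18) (lt4 1) h9 h18 (by decide +kernel)
  have h13 : Cgr C4 cl5_0 [th4] (lt4 13) := Cgr.add (lt4 22) (lt4 8) (lt4 13) h22 h8 (by decide +kernel)
  have h15 : Cgr C4 cl5_0 [th4] (lt4 15) := Cgr.add (lt4 22) (lt4 7) (lt4 15) h22 h7 (by decide +kernel)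
  have h0 : Cgr C4 cl5_0 [th4] (lt4 0) := Cgr.act (lt4 8) [(lt4 8, true)] [(lt4 10, true)] (lt4 18) (lt4 0) h8
    (by decide +kernel) (by decide +kernel)
  refine ⟨cl5_0, by decide +kernel, ?_, ⟨[], [(lt4 17, true), (lt4 6, true)], lt4 9, by decide +kernel, by decide +kernel, by decide +kernel⟩, ?_⟩
  · intro P hP
    simp only [cl5_0, List.mem_cons, List.not_mem_nil, or_false] at hP
    rcases hP with hP | hP | hP | hP
    · exact ⟨lt4 9, lt4 17, false, true, [(lt4 6, true)], hP, by decide +kernel, by decide +kernel, by decide +kernel, by decide +kernel, by decide +kernel, Or.inr ⟨lt4 6, true, rfl, by decide +kernel, Or.inr ⟨by decide +kernel, by decide +kernel, by decide +kernel⟩⟩⟩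
    · exact ⟨lt4 8, lt4 18, true, true, [(lt4 10, true)], hP, by decide +kernel, by decide +kernel, by decide +kernel, by decide +kernel, by decide +kernel, Or.inr ⟨lt4 10, true, rfl, by decide +kernel, Or.inr ⟨by decide +kernel, by decide +kernel, by decide +kernel⟩⟩⟩
    · exact ⟨lt4 10, lt4 19, true, true, [(lt4 9, true)], hP, by decide +kernel, by decide +kernel, by decide +kernel, by decide +kernel, by decide +kernel, Or.inr ⟨lt4 9, true, rfl, by decide +kernel, Or.inr ⟨by decide +kernel, by decide +kernel, by decide +kernel⟩⟩⟩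
    · exact ⟨lt4 9, lt4 22, true, true, [(lt4 6, true)], hP, by decide +kernel, by decide +kernel, by decide +kernel, by decide +kernel, by decide +kernel, Or.inr ⟨lt4 6, true, rfl, by decide +kernel, Or.inr ⟨by decide +kernel, by decide +kernel, by decide +kernel⟩⟩⟩
  · have e0 : (sr 0 : Fin 4 → ℤ) = lt4 3 ∧ -(sr 0 : Fin 4 → ℤ) = lt4 15 := by decide +kernel
    have e1 : (sr 1 : Fin 4 → ℤ) = lt4 2 ∧ -(sr 1 : Fin 4 → ℤ) = lt4 14 := by decide +kernel
    have e2 : (sr 2 : Fin 4 → ℤ) = lt4 1 ∧ -(sr 2 : Fin 4 → ℤ) = lt4 13 := by decide +kernel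
    have e3 : (sr 3 : Fin 4 → ℤ) = lt4 0 ∧ -(sr 3 : Fin 4 → ℤ) = lt4 12 := by decide +kernel
    intro i
    fin_cases i
    · exact ⟨e0.1 ▸ h3, e0.2 ▸ h15⟩
    · exact ⟨e1.1 ▸ h2, e1.2 ▸ h14⟩
    · exact ⟨e2.1 ▸ h1, e2.2 ▸ h13⟩
    · exact ⟨e3.1 ▸ h0, e3.2 ▸ h12⟩

end Pool.Agent.TRI
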