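import Pool.Agent.helper32.TRI.Facts
import Pool.Agent.helper32.TRG.Cert0
import Pool.Agent.helper32.TRG.Cert1
import Pool.Agent.helper42.TRG.X4C
import Pool.Agent.helper32.TRG.S4N
import Pool.Agent.helper66.TRG.N4N
import Pool.Agent.helper97.TRG.F4G
import Pool.Agent.helper20.TRG.W4P
import Pool.Agent.helper50.TRG.T4P
import Pool.Agent.helper21.TRG.Y4P
import Pool.Agent.helper63.TRG.CM4
import Pool.Agent.helper71.TRG.Z5A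
import Pool.Agent.helper31.TRG.Z5B
import Pool.Agent.helper24.TRG.Z5C
import Pool.Agent.helper98.TRG.Z5F
import Pool.Agent.helper43.EXG.GXC
import Pool.Agent.helper68.EXG.GCJ
import Pool.Agent.helper79.EXG.GNR
import Pool.Agent.helper44.EXG.GGN
import Pool.Agent.helper75.EXG.GSN
import Pool.Agent.helper92.EXG.GVA
import Pool.Agent.helper29.EXG.GYB
import Pool.Agent.helper41.EXG.GYC

/-!
# Project TRG (MP_561ff4_al): all rows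
-/

set_option autoImplicit false

open Finset

namespace Pool.Agent.TRI

open Pool.Agent.EXC

theorem t_X4C : Pool.Agent.TRI.X4C_stmt := Pool.Agent.TRI.X4C

theorem t_S4N : Pool.Agent.TRI.S4N_stmt := Pool.Agent.TRI.S4N Pool.Agent.TRI.t_X4C

theorem t_N4N : Pool.Agent.TRI.N4N_stmt := Pool.Agent.TRI.N4N Pool.Agent.TRI.t_X4C Pool.Agent.TRI.t_RL4

theorem t_F4G : Pool.Agent.TRI.F4G_stmt := Pool.Agent.TRI.F4G

theorem t_W4P : Pool.Agent.TRI.W4P_stmt := Pool.Agent.TRI.W4P Pool.Agent.TRI.t_RL4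

theorem t_T4P : Pool.Agent.TRI.T4P_stmt := Pool.Agent.TRI.T4P Pool.Agent.TRI.t_RL4 Pool.Agent.TRI.t_TO4

theorem t_Y4P : Pool.Agent.TRI.Y4P_stmt := Pool.Agent.TRI.Y4P Pool.Agent.TRI.t_W4P Pool.Agent.TRI.t_T4P

theorem t_CM4 : Pool.Agent.TRI.CM4_stmt := Pool.Agent.TRI.CM4 Pool.Agent.TRI.t_PR4 Pool.Agent.TRI.t_T4P

theorem t_Z5A : Pool.Agent.TRI.Z5A_stmt := Pool.Agent.TRI.Z5A Pool.Agent.TRI.t_X4C Pool.Agent.TRI.t_S4N Pool.Agent.TRI.t_N4N Pool.Agent.TRI.t_F4G Pool.Agent.TRI.t_Y4P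

theorem t_GXC : Pool.Agent.EXC.GXC_stmt := Pool.Agent.EXC.GXC

theorem t_GCJ : Pool.Agent.EXC.GCJ_stmt := Pool.Agent.EXC.GCJ

theorem t_GNR : Pool.Agent.EXC.GNR_stmt := Pool.Agent.EXC.GNR

theorem t_GGN : Pool.Agent.EXC.GGN_stmt := Pool.Agent.EXC.GGN Pool.Agent.TRI.t_GXC Pool.Agent.TRI.t_GCJ Pool.Agent.TRI.t_GNR

theorem t_GSN : Pool.Agent.EXC.GSN_stmt := Pool.Agent.EXC.GSN Pool.Agent.TRI.t_GXC

theorem t_GVA : Pool.Agent.EXC.GVA_stmt := Pool.Agent.EXC.GVA Pool.Agent.TRI.t_GXC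

theorem t_GYB : Pool.Agent.EXC.GYB_stmt := Pool.Agent.EXC.GYB Pool.Agent.TRI.t_GXC Pool.Agent.TRI.t_GVA

theorem t_GYC : Pool.Agent.EXC.GYC_stmt := Pool.Agent.EXC.GYC Pool.Agent.TRI.t_GXC Pool.Agent.TRI.t_GVA Pool.Agent.TRI.t_GYB

theorem t_Z5B : Pool.Agent.TRI.Z5B_stmt := Pool.Agent.TRI.Z5B Pool.Agent.TRI.t_N4N Pool.Agent.TRI.t_CM4 Pool.Agent.TRI.t_GSN

theorem t_Z5C : Pool.Agent.TRI.Z5C_stmt := Pool.Agent.TRI.Z5C Pool.Agent.TRI.t_N4N Pool.Agent.TRI.t_CN4 Pool.Agent.TRI.t_GSN Pool.Agent.TRI.t_GYC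

theorem t_Z5F : Pool.Agent.TRI.Z5F_stmt := Pool.Agent.TRI.Z5F Pool.Agent.TRI.t_Z5A Pool.Agent.TRI.t_Z5B Pool.Agent.TRI.t_Z5C Pool.Agent.TRI.t_PR4 Pool.Agent.TRI.t_YC4

end Pool.Agent.TRI
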