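import Pool.Agent.helper32.TRI.Spec
import Pool.Agent.helper16.EXG.Spec
import Pool.Agent.helper43.EXG.GXC
import Pool.Agent.helper68.EXG.GCJ
import Pool.Agent.helper14.EXG.GGA

/-!
# Project TRG (MP_561ff4_al): ten conjugates of ANY automorphism `x ≠ 1` (triality included) generate `D₄(q)`. The rows

RULES. Row `XXX`: file `Pool/Agent/<seat>/TRG/XXX.lean`, `import Pool.Agent.helper32.TRG.Spec`, `set_option autoImplicit false`,
`open Finset`, `namespace Pool.Agent.TRI`, `open Pool.Agent.EXC`, theorem line exactly as in the lock note (other rows only as hypotheses; you may drop or add some),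
auxiliary lemmas prefixed `XXX_`. No straight double quotes, no convert / congr!. Land, note DONE + path, one line to helper32.
FREE FACTS: everything of `Pool/Agent/helper32/TRI/Spec.lean` (`g4_EXF`, `g4_TPF`, `g4_NBR`, `g4_TSY`, `g4_PCL`, `g4_FIX`, `g4_GEO`, `g4_ARA`, `g_XG`, `hb4`, `f_XAU`, `f_WPG`, `f_RFL`, ...), the rows
of TRI (namespace `Pool.Agent.TRI`) as hypotheses: `RL4_stmt` (list of the roots), `TO4_stmt` (torus elements), `PR4_stmt` (representatives of the pairs), `CN4_stmt`, `YC4_stmt`; and `g_GXC`,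
`g_GCJ`, `g_GGA` below (calculus of root elements, conjugation, groups; statements in `Pool/Agent/helper16/EXG/Spec.lean`). The proofs of the rows GSN, GGN, GF0 of project EXG
(`Pool/Agent/*/EXG/*.lean`) are models.

IDEA. Only orthogonal pairs need care in `D₄`: `GE` has three orbits on the orthogonal pairs of roots (the class of `u + v` modulo `2Q`), and the product of the scalars is determined modulo squares.
So we work with the scaled root elements `x'_α(t) = x_α(c^χ(α) t)`, up to signs.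
-/

set_option autoImplicit false

open Finset

namespace Pool.Agent.TRI

open Pool.Agent.EXC

theorem g_GXC : GXC_stmt := GXC
theorem g_GCJ : GCJ_stmt := GCJ
theorem g_GGA : GGA_stmt := GGA

section
variable {K : Type} [Field K]

/-- the scaled root element `x'_α(t) = x_α(c^χ(α) t)` -/
noncomputable def XP (χ : Fin 4 → ℤ) (c : K) (α : Fin 4 → ℤ) (t : K) : Lm C4 K ≃ₗ[K] Lm C4 K := XG C4 α (t * c ^ (cv4 χ α))

/-- products of scaled root elements -/
noncomputable def pq (χ : Fin 4 → ℤ) (c : K) (l : List ((Fin 4 → ℤ) × K)) : Lm C4 K ≃ₗ[K] Lm C4 K := (l.map fun p => XP χ c p.1 p.2).prod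

/-- `l` is a list of parameters for the product `P`: the entries `true` have the parameter `1` or `-1` -/
def OKs (P : List ((Fin 4 → ℤ) × Bool)) (l : List ((Fin 4 → ℤ) × K)) : Prop :=
  List.Forall₂ (fun p q => q.1 = p.1 ∧ (p.2 = true → q.2 = 1 ∨ q.2 = -1)) P l

end

/-- the orthogonal pair of roots `(u, v)` is in the class of `(θ, bt4 j)` -/
def Kl4 (j : Fin 6) (u v : Fin 4 → ℤ) : Prop := ip C4 u u = 2 ∧ ip C4 v v = 2 ∧ ip C4 u v = 0 ∧ ∀ i, (2 : ℤ) ∣ u i + v i - (th4 i + bt4 j i)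

/-- the products allowed for the class `j`: `x_u x_v`, or `x_u x_v x_w` with `(w, u) = (w, v) = 1` (all of them are conjugates of `x_θ x_(bt4 j)`) -/
def OkQ (j : Fin 6) (P : List ((Fin 4 → ℤ) × Bool)) : Prop := ∃ u v : Fin 4 → ℤ, Kl4 j u v ∧
  (P = [(u, true), (v, true)] ∨ ∃ (w : Fin 4 → ℤ) (b : Bool), ip C4 w w = 2 ∧ ip C4 w u = 1 ∧ ip C4 w v = 1 ∧ P = [(u, true), (v, true), (w, b)])

/-- certificate for the class `j` of orthogonal pairs: five products, one of them with an entry `(w, false)`, whose closure contains all `± α_i` -/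
def Ct4 (j : Fin 6) : Prop := ∃ PL : List (List ((Fin 4 → ℤ) × Bool)), PL.length = 5 ∧ (∀ P ∈ PL, OkQ j P) ∧
  (∃ u v w : Fin 4 → ℤ, ip C4 u u = 2 ∧ ip C4 v v = 2 ∧ ip C4 w w = 2 ∧ [(u, true), (v, true), (w, false)] ∈ PL) ∧
  ∀ i, Cgr C4 PL [] (sr i) ∧ Cgr C4 PL [] (-sr i)

/-- five conjugates of `y` generate -/
def G5 {F : Type} [Field F] (y : EG C4 F) : Prop := ∃ g : Fin 5 → EG C4 F, Subgroup.closure (Set.range fun i => g i * y * (g i)⁻¹) = ⊤

/-! ## A. Scaled root elements -/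

/-- **X4C** (short). The calculus `g_GXC` for the scaled elements: `c^χ(α) c^χ(β) = c^χ(α+β)` (`zpow_add₀`, `cv4 χ (α + β) = cv4 χ α + cv4 χ β`, write it as a lemma). -/
def X4C_stmt : Prop := ∀ (K : Type) [Field K] (χ : Fin 4 → ℤ) (c : K), c ≠ 0 → ∀ α β, ip C4 α α = 2 → ip C4 β β = 2 → ∀ s t : K,
  XP χ c α (s + t) = XP χ c α s * XP χ c α t ∧ XP χ c α (0 : K) = 1 ∧ (0 ≤ ip C4 α β → XP χ c α s * XP χ c β t = XP χ c β t * XP χ c α s) ∧
  (ip C4 α β = -1 → XP χ c α s * XP χ c β t * (XP χ c α s)⁻¹ = XP χ c β t * XP χ c (α + β) (s * t * (sg C4 α β : K)))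

/-- **S4N** (medium). uses: X4C. Soundness of the closure with signs (the twin of row GSN of EXG, `Pool/Agent/helper75/EXG/GSN.lean` if it is there). Induction on `Cgr`; `r` is a root (`add_root_iff`), `x'_r(1) ∈ H`; `x'_α(-1) = x'_α(1)⁻¹` (X4C), so `x'_α(± 1) ∈ H` is the same.
In all the products the entries of the form `(·, false)` have an arbitrary parameter and only commute. `com`: `P = p₁ x'_u(ε) p₂`, `Q = q₁ x'_v(ε') q₂` (split the lists of parameters: `List.forall₂_append_left_iff` or so). Every factor of `p₁, p₂` commutes with `Q` (products `≥ 0` with all entries of `Q`), `x'_u(ε)` commutes with `q₁, q₂`;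
`x'_u(ε) x'_v(ε') x'_u(ε)⁻¹ = x'_v(ε') z`, `z = x'_w(± 1)`, which commutes with all factors of `P`, `Q`. So `P Q P⁻¹ = Q z`, `z ∈ H`. `act`: the same with `P = x'_r(1)`. `add`: the same with two single elements. `one`: `x'_u(ε) = p₁⁻¹ P p₂⁻¹`, all other factors are in `H` (entries `true`, parameters `± 1`). `yy`: `A = []`. -/
def S4N_stmt : Prop := ∀ (K : Type) [Field K] (χ : Fin 4 → ℤ) (c : K), c ≠ 0 → ∀ (PL : List (List ((Fin 4 → ℤ) × Bool)))
  (H : Subgroup (Lm C4 K ≃ₗ[K] Lm C4 K)), (∀ P ∈ PL, ∀ p ∈ P, ip C4 p.1 p.1 = 2) → (∀ P ∈ PL, ∃ l, OKs P l ∧ pq χ c l ∈ H) →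
  ∀ r, Cgr C4 PL [] r → ip C4 r r = 2 ∧ XP χ c r (1 : K) ∈ H

/-- **N4N** (medium). uses: X4C, RL4. Generation. First part: if `x'_α(1), x'_β(1) ∈ H`, `(α, β) = -1`, then `x'_{α+β}(± 1) ∈ H` (X4C), so `x'_{α+β}(1) ∈ H`. The roots are `lt4 k` (RL4), `± sr i` are the indices `0 .. 3`, `12 .. 15` (`lt4 0 = sr 3`, `lt4 1 = sr 2`, `lt4 2 = sr 1`, `lt4 3 = sr 0`); every other root is a sum of two with
smaller height: `4 = 0+2`, `5 = 1+2`, `6 = 2+3`, `7 = 4+1`, `8 = 4+3`, `9 = 5+3`, `10 = 7+3`, `11 = 10+2`, and the negatives (`k+12`); all checks by `decide +kernel`. Second part: `x'_v(t) ∈ H`. If `(v, α) = 1` then `α = v + (α - v)`, `(v, α - v) = -1`, so `x'_α(± t) ∈ H`; the graph of the pairs of roots with product `1` is connected (check by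
`decide +kernel`: for all `k l : Fin 24` a path of length `≤ 3`); so `x'_α(t) ∈ H` for all roots. `A = {s | x'_α(s) ∈ H for all roots α}` is a subring: `+`, `-`, `0` by X4C, `1`; products: `α = β + γ` with `(β, γ) = -1` (`hb4` for `-α` or a check), commutator, `sg = ± 1`. So `A = ⊤`; the generators of `GE C4 K` are the `XG C4 α s = x'_α(s c^(-χ(α)))`
(an element with `IsX C4 (E C4 α) s` is `XG C4 α s`; `g_XG`). -/
def N4N_stmt : Prop := ∀ (K : Type) [Field K] (χ : Fin 4 → ℤ) (c : K), c ≠ 0 → ∀ H : Subgroup (Lm C4 K ≃ₗ[K] Lm C4 K),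
  (∀ i, XP χ c (sr i) 1 ∈ H ∧ XP χ c (-sr i) 1 ∈ H) → (∀ α, ip C4 α α = 2 → XP χ c α 1 ∈ H) ∧
  ∀ (v : Fin 4 → ℤ) (t : K), ip C4 v v = 2 → XP χ c v t ∈ H → (∀ A : Subring K, t ∈ A → A = ⊤) → GE C4 K ≤ H

/-- **F4G** (short; fields). `t` a generator of `Kˣ` (`IsCyclic`). A subring `A` with `t² ∈ A` contains all squares `(t^k)² = (t²)^k` and `0`; every element of `K` is a sum of two squares (`FiniteField.exists_root_sum_quadratic` for `X²`, `X² - u`, or `FiniteField.isSquare_..` in characteristic 2; or pigeonhole). -/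
def F4G_stmt : Prop := ∀ (K : Type) [Field K] [Finite K], ∃ t : K, t ≠ 0 ∧ ∀ A : Subring K, t ^ 2 ∈ A → A = ⊤

/-! ## B. Conjugacy of pairs -/

/-- **W4P** (medium). uses: RL4. The Weyl group is transitive on each class of orthogonal pairs. Let `(u, v)` be in the class of `(θ, bt4 j)`. `g4_NBR` (`α = u`, `α' = θ`, `β = v`): `WP C4 (u, v) (θ, β')`. Along a chain of reflections the products `(·,·)` are preserved (`f_RFL`), and `w = u + v` satisfies `w ≡ θ + bt4 j` modulo `2` in all coordinates and `(w, sr i)` is even for all `i`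
(as `(θ + bt4 j, sr i)` is even: check, `j = 2, 3, 4`), which is preserved: `rf i w = w - (w, sr i) sr i ≡ w`. So `β' = lt4 k` (RL4) with `(θ, β') = 0`, `β' ≡ bt4 j` modulo 2: `β' = ± bt4 j` (`decide +kernel` over `k : Fin 24`); the reflection at the node of `bt4 j` (`bt4 2 = sr 0`, `bt4 3 = sr 2`, `bt4 4 = sr 3`) fixes `θ` and changes the sign of `bt4 j`.
Finally `WP` is symmetric (reflections are involutions, `f_RFL`). -/
def W4P_stmt : Prop := ∀ (j : Fin 6) (u v : Fin 4 → ℤ), (j = 2 ∨ j = 3 ∨ j = 4) → Kl4 j u v → WP C4 (th4, bt4 j) (u, v)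

/-- **T4P** (short-medium). uses: RL4, TO4. Torus elements for a pair. (1) For orthogonal roots `u, v` there are roots `β₁, β₂` with `((u,β₁),(v,β₁)) = (1, 1)`, `((u,β₂),(v,β₂)) = (1, -1)` (`decide +kernel` over `lt4`); `h = h_{β₁}(s) h_{β₂}(t)` (TO4). (2) `(u,v) = -1`: roots with `(1, 0)` and `(0, 1)`. -/
def T4P_stmt : Prop := ∀ (K : Type) [Field K] (u v : Fin 4 → ℤ), ip C4 u u = 2 → ip C4 v v = 2 → ∀ s t : K, s ≠ 0 → t ≠ 0 →
  (ip C4 u v = 0 → ∃ h ∈ GE C4 K, h (E C4 u) = (s * t) • (E C4 u : Lm C4 K) ∧ h (E C4 v) = (s * t⁻¹) • (E C4 v : Lm C4 K)) ∧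
  (ip C4 u v = -1 → ∃ h ∈ GE C4 K, h (E C4 u) = s • (E C4 u : Lm C4 K) ∧ h (E C4 v) = t • (E C4 v : Lm C4 K))

/-- **Y4P** (medium). uses: W4P, T4P. The conjugates of `y' = x'_θ(1) x'_β(1)`, `β = bt4 j`, `χ(θ) = 0`, `χ(β) = 1` (so `y' = x_θ(1) x_β(c)`). W4P, `f_WPG` (with `hb4`): `g₀ E θ = ε E u`, `g₀ E β = ε' E v`; then `g_GCJ`: `g₀ y' g₀⁻¹ = x_u(ε) x_v(ε' c)`. `χ(u) + χ(v)` is odd (it is `χ(θ + β) = 1` modulo 2, Kl4). T4P for `(u, v)` with `s = c^m`,
`s' = c^n t⁻¹`.. : we need a torus element `h` with `h E u = c^χ(u) E u`, `h E v = c^(χ(v) - 1) t² E v`: in T4P take `s = c^((χ(u) + χ(v) - 1)/2) t`, `t := c^((χ(u) - χ(v) + 1)/2) t⁻¹` (product `c^χ(u)`, quotient `c^(χ(v) - 1) t²`). `g = h g₀`. -/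
def Y4P_stmt : Prop := ∀ (K : Type) [Field K] (χ : Fin 4 → ℤ) (c : K), c ≠ 0 → ∀ (j : Fin 6), (j = 2 ∨ j = 3 ∨ j = 4) → cv4 χ th4 = 0 → cv4 χ (bt4 j) = 1 →
  ∀ (u v : Fin 4 → ℤ), Kl4 j u v → ∀ t : K, t ≠ 0 → ∃ g ∈ GE C4 K, ∃ ε ε' : K, (ε = 1 ∨ ε = -1) ∧ (ε' = 1 ∨ ε' = -1) ∧
  g * (XP χ c th4 1 * XP χ c (bt4 j) 1) * g⁻¹ = XP χ c u ε * XP χ c v (ε' * t ^ 2)

/-- **CM4** (short-medium). uses: PR4, T4P. `GE` is transitive on the pairs of type `-1`. PR4 for both pairs (`j = 1` by `bt4_spec`): `g a = E θ`, `g b = κ E (bt4 1)`, `g' a' = E θ`, `g' b' = κ' E (bt4 1)`; T4P (2) for `(θ, bt4 1)` with `s = 1`, `t = κ'/κ`. -/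
def CM4_stmt : Prop := ∀ (F : Type) [Field F] (a b a' b' : Lm C4 F), Tp C4 th4 a b (-1) → Tp C4 th4 a' b' (-1) → ∃ g ∈ GE C4 F, g a = a' ∧ g b = b'

/-! ## C. Five conjugates of `y` generate -/

/-- **Z5A** (medium). uses: S4N, N4N, F4G, Y4P, X4C. Type `0` (model: GF0 of EXG, and the group part of `Pool/Agent/helper20/EXG/GF2.lean`). `k a = E θ`, `k b = κ E (bt4 j)`: take `c = κ`, `χ = ch4 ..` with `χ(θ) = 0`, `χ(bt4 j) = 1` (`![1,0,-1,0]`, `![-1,0,1,0]`, `![-1,0,0,1]` for `j = 2, 3, 4`): `k y k⁻¹ = x'_θ(1) x'_β(1) = y'` (conjugation of root elements: `g4_EXF`; scalars `f_XAU`).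
`t` from F4G, `T = t²`. CLAIM: for each product `P` with `OkQ j P` there are `g ∈ GE` and a list of parameters `l`, `OKs P l`, with the parameter `T` at the entry `(w, false)`, such that `g y' g⁻¹ = pq χ c l`. `P = [(u, true), (v, true)]`: Y4P with `t = 1`: `g₀ y' g₀⁻¹ = x'_u(ε) x'_v(ε')`.
`P = [(u, true), (v, true), (w, b)]`: `δ = w - u`, `(δ, u) = -1`, `(δ, v) = 1`, `δ + u = w` (X4C): `x'_δ(s) x'_u(ε) x'_v(ε') x'_δ(s)⁻¹ = x'_u(ε) x'_w(± s ε) x'_v(ε')`, and `x'_w` commutes with `x'_v`; choose `s` such that the parameter of `w` is `1`, resp. `T`.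
`H` = image of the closure of the `g_i k y (g_i k)⁻¹` in `GE`; S4N, N4N (first part); the product with `(w, false)`: `x'_w(T) = x'_v(ε')⁻¹ x'_u(ε)⁻¹ · product ∈ H`; N4N (second part), F4G: `GE ≤ H`. -/
def Z5A_stmt : Prop := ∀ (F : Type) [Field F] [Finite F] (j : Fin 6), (j = 2 ∨ j = 3 ∨ j = 4) → Ct4 j → ∀ (a b : Lm C4 F) (y : EG C4 F) (κ : F), κ ≠ 0 →
  (∃ g ∈ GE C4 F, g a = E C4 th4 ∧ g b = κ • (E C4 (bt4 j) : Lm C4 F)) → Ex C4 a → Ex C4 b → Y4 a b y → G5 y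

/-- **Z5B** (medium). uses: CM4, and the EXG rows GXC, GSN (hypothesis `hGSN : GSN_stmt`), N4N with `χ = 0`. Type `-1` (model: GF0 of EXG, `Pool/Agent/helper6/EXG/GF0.lean` if it is there; CM4 instead of `k_CNJ`, N4N with `χ = 0`, `c = 1` instead of GGN: `XP 0 1 α t = XG C4 α t`). Every conjugate `x_u(s) x_v(s')`, `(u, v) = -1`, `s, s' ≠ 0`, occurs. -/
def Z5B_stmt : Prop := ∀ (F : Type) [Field F] [Finite F], Ct0 C4 (-1) → ∀ (a b : Lm C4 F) (y : EG C4 F), Tp C4 th4 a b (-1) → Y4 a b y → G5 y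

/-- **Z5C** (short-medium). uses: CN4, GSN, GYC, N4N. Type `-2`: copy `Pool/Agent/helper20/EXG/GF2.lean` with CN4 instead of `k_CNJ` and N4N (`χ = 0`, `c = 1`) instead of GGN. -/
def Z5C_stmt : Prop := ∀ (F : Type) [Field F] [Finite F], Ct2 C4 th4 → ∀ (a b : Lm C4 F) (y : EG C4 F), Tp C4 th4 a b (-2) → Y4 a b y → G5 y

/-- **Z5F** (short). uses: Z5A, Z5B, Z5C, PR4, YC4. The theorem. `g4_ARA`; YC4 gives `t`, `Y4 a b (x t * t⁻¹)` of type `m`; `m = 0`: PR4 gives `j` with `ip C4 th4 (bt4 j) = 0`, so `j = 2, 3, 4` (`bt4_spec`). `g_GGA`; the centre is trivial (`g4_FIX`); `EG C4 F` is finite. -/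
def Z5F_stmt : Prop := Ct4 2 → Ct4 3 → Ct4 4 → Ct0 C4 (-1) → Ct2 C4 th4 → ∀ (F : Type) [Field F] [Finite F] (x : MulAut (EG C4 F)), x ≠ 1 →
  (∃ h : Fin 10 → EG C4 F, (MulAut.conj : EG C4 F →* MulAut (EG C4 F)).range ≤
    Subgroup.closure (Set.range fun i => MulAut.conj (h i) * x * (MulAut.conj (h i))⁻¹)) ∧
  ∀ r : ℕ, r.Prime → r ∣ Nat.card (EG C4 F) → 10 ∈ Pool.Agent.GS.CSet r x

end Pool.Agent.TRI
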